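import Pool.Agent.Q43.FD.Irr
import Pool.Agent.Q43.HTM.Fin

/-!
# The Frobenius conditions on the summands
-/

set_option autoImplicit false

namespace Q43.FD

open Polynomial Module Pool.Agent.Y134.TF TensorProduct
open Pool.Agent.W544.PG (HS BD)
open Pool.Agent.Y95.MT (GalT qm)
open Q43.HTM (Irr NonIso Rj)
open scoped Matrix

section
variable {n r : ℕ} {F : Type} [Field F] (c : Fin n → Fin r) (i : Fin r)

/-- the block -/
def sm (A : Matrix (Fin n) (Fin n) F) : Matrix {a // c a = i} {a // c a = i} F :=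
  A.submatrix Subtype.val Subtype.val

/-- extension by zero -/
def ex : ({a // c a = i} → F) →ₗ[F] (Fin n → F) where
  toFun y a := if h : c a = i then y ⟨a, h⟩ else 0
  map_add' := by
    intro x y
    funext a
    rw [Pi.add_apply]
    by_cases h : c a = i
    · rw [dif_pos h, dif_pos h, dif_pos h, Pi.add_apply]
    · rw [dif_neg h, dif_neg h, dif_neg h, add_zero]
  map_smul' := by
    intro z x
    funext a
    rw [Pi.smul_apply, RingHom.id_apply]
    by_cases h : c a = i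
    · rw [dif_pos h, dif_pos h, Pi.smul_apply]
    · rw [dif_neg h, dif_neg h, smul_zero]

variable {c i}

lemma ex_val (y : {a // c a = i} → F) (a : {a // c a = i}) : ex c i y a.1 = y a := dif_pos a.2

lemma ex_of_ne (y : {a // c a = i} → F) {a : Fin n} (h : c a ≠ i) : ex c i y a = 0 := dif_neg h

lemma ex_inj {y z : {a // c a = i} → F} (h : ex c i y = ex c i z) : y = z := by
  funext a
  rw [← ex_val y a, h, ex_val]

lemma sum_ex (f : Fin n → F) (y : {a // c a = i} → F) :
    ∑ b, f b * ex c i y b = ∑ b : {a // c a = i}, f b.1 * y b := by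
  classical
  have h1 : ∑ b, f b * ex c i y b = ∑ b ∈ Finset.univ.filter (fun b => c b = i),
      f b * ex c i y b := by
    symm
    refine Finset.sum_subset (Finset.filter_subset _ _) fun b _ hb => ?_
    have h2 : c b ≠ i := fun h0 => hb (Finset.mem_filter.2 ⟨Finset.mem_univ b, h0⟩)
    rw [ex_of_ne y h2, mul_zero]
  rw [h1, Finset.sum_subtype (p := fun b => c b = i) _ (by simp)]
  exact Finset.sum_congr rfl fun b _ => by rw [ex_val]

lemma mulVec_ex {A : Matrix (Fin n) (Fin n) F} (hA : BD c A) (y : {a // c a = i} → F) :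
    A *ᵥ ex c i y = ex c i (sm c i A *ᵥ y) := by
  funext a
  change ∑ b, A a b * ex c i y b = _
  rw [sum_ex]
  by_cases h : c a = i
  · have h1 := ex_val (sm c i A *ᵥ y) ⟨a, h⟩
    rw [h1]
    rfl
  · rw [ex_of_ne _ h]
    refine Finset.sum_eq_zero fun b _ => ?_
    rw [hA a b.1 (by rw [b.2]; exact h), zero_mul]

lemma sm_mul {A B : Matrix (Fin n) (Fin n) F} (hB : BD c B) :
    sm c i (A * B) = sm c i A * sm c i B := by
  ext a b
  change ∑ x, A a.1 x * B x b.1 = ∑ x : {a // c a = i}, A a.1 x.1 * B x.1 b.1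
  have h1 : (fun x => B x b.1) = ex c i (fun x => B x.1 b.1) := by
    funext x
    by_cases h : c x = i
    · exact (ex_val (fun x : {a // c a = i} => B x.1 b.1) ⟨x, h⟩).symm
    · rw [ex_of_ne _ h]
      exact hB x b.1 (by rw [b.2]; exact h)
  have h2 := sum_ex (A a.1) (fun x : {a // c a = i} => B x.1 b.1)
  rw [← h1] at h2
  exact h2

lemma sm_one : sm c i (1 : Matrix (Fin n) (Fin n) F) = 1 :=
  Matrix.submatrix_one _ Subtype.val_injective

/-- the representation on the block -/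
def smRep {Γ : Type} [Group Γ] (N : Γ →* Matrix (Fin n) (Fin n) F) (hN : ∀ s, BD c (N s))
    (i : Fin r) : Γ →* Matrix {a // c a = i} {a // c a = i} F where
  toFun s := sm c i (N s)
  map_one' := by rw [map_one, sm_one]
  map_mul' s t := by rw [map_mul, sm_mul (hN t)]

/-- as endomorphisms -/
def endRep {ι : Type} [Fintype ι] [DecidableEq ι] {Γ : Type} [Group Γ]
    (M : Γ →* Matrix ι ι F) : Γ →* Module.End F (ι → F) where
  toFun s := Matrix.toLin' (M s)
  map_one' := by rw [map_one, Matrix.toLin'_one]; rfl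
  map_mul' s t := by rw [map_mul, Matrix.toLin'_mul]; rfl

lemma sm_det {Q : Matrix (Fin n) (Fin n) F} (hQ : BD c Q) (h : Q.det ≠ 0) : (sm c i Q).det ≠ 0 := by
  intro h0
  obtain ⟨v, hv, hv0⟩ := Matrix.exists_mulVec_eq_zero_iff.2 h0
  apply h
  rw [← Matrix.exists_mulVec_eq_zero_iff]
  refine ⟨ex c i v, fun h1 => hv (ex_inj (by rw [h1, map_zero])), ?_⟩
  rw [mulVec_ex hQ, hv0, map_zero]

end

section
variable {n r : ℕ} {c : Fin n → Fin r} {ℓ : ℕ} [Fact ℓ.Prime] {Γ : Type} [Group Γ]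

/-- the roots are different and no quotient is a root of unity -/
def RegularP (j : ℚ_[ℓ] →+* ℂ) (P : ℚ_[ℓ][X]) : Prop :=
  P.Separable ∧ ∀ x y : ℂ, P.eval₂ j x = 0 → P.eval₂ j y = 0 → ∀ m : ℕ, 0 < m → x ^ m = y ^ m → x = y

/-- a simple isolated root -/
def IsolatedP (j : ℚ_[ℓ] →+* ℂ) (P : ℚ_[ℓ][X]) (μ : ℚ_[ℓ]) : Prop :=
  P.rootMultiplicity μ = 1 ∧
    ∀ x : ℂ, P.eval₂ j x = 0 → ∀ m : ℕ, 0 < m → x ^ m = j μ ^ m → x = j μ

/-- the Frobenius polynomial -/
noncomputable def fr (c : Fin n → Fin r) (β : Γ →* Matrix (Fin n) (Fin n) ℤ_[ℓ]) (i : Fin r) (s : Γ) :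
    ℚ_[ℓ][X] :=
  (sm c i (qm (β s))).charpoly

/-- The conditions on the Frobenius polynomials for one summand of rank `N`. -/
def FrC (c : Fin n → Fin r) (j : ℚ_[ℓ] →+* ℂ) (β : Γ →* Matrix (Fin n) (Fin n) ℤ_[ℓ]) (i : Fin r)
    (N : ℕ) : Prop :=
  ((∀ d, 0 < d → d < N → ∃ s, RegularP j (fr c β i s) ∧ NoFactor (fr c β i s) d) ∧
    ∃ s μ, IsolatedP j (fr c β i s) μ) ∨
  ((∃ s t, RegularP j (fr c β i s) ∧ TwoLines ℚ_[ℓ] (fr c β i s) (fr c β i t)) ∧
    ∀ d, 1 < d → d + 1 < N → ∃ s, RegularP j (fr c β i s) ∧ NoFactor (fr c β i s) d)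

/-- the condition on two summands -/
def DiffC (c : Fin n → Fin r) (j : ℚ_[ℓ] →+* ℂ) (β : Γ →* Matrix (Fin n) (Fin n) ℤ_[ℓ])
    (i k : Fin r) : Prop :=
  ∃ (s : Γ) (x : ℂ), (fr c β i s).eval₂ j x = 0 ∧
    ∀ y : ℂ, (fr c β k s).eval₂ j y = 0 → ∀ m : ℕ, 0 < m → x ^ m ≠ y ^ m

variable {T : HS n} {β : Γ →* Matrix (Fin n) (Fin n) ℤ_[ℓ]} {j : ℚ_[ℓ] →+* ℂ}

/-- the representation over `ℚ_ℓ` -/
noncomputable def Nq (β : Γ →* Matrix (Fin n) (Fin n) ℤ_[ℓ]) :
    Γ →* Matrix (Fin n) (Fin n) ℚ_[ℓ] where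
  toFun s := qm (β s)
  map_one' := by rw [map_one, Pool.Agent.Y95.MT.qm_one]
  map_mul' s t := by rw [map_mul, Pool.Agent.Y95.MT.qm_mul]

theorem irr_block (hg : GalT c T.Q β) (hQ : BD c T.Q) {i : Fin r}
    (h : FrC c j β i (Fintype.card {a // c a = i})) : Irr c (Rj β j) i := by
  let _ : Algebra ℚ_[ℓ] ℂ := j.toAlgebra
  have halg : ∀ x, algebraMap ℚ_[ℓ] ℂ x = j x := fun _ => rfl
  let M := smRep (Nq β) (fun s => hg.qbd s) i
  have hMs : ∀ s, M s = sm c i (qm (β s)) := fun _ => rfl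
  let Q : Matrix {a // c a = i} {a // c a = i} ℚ_[ℓ] := sm c i (T.Q.map (algebraMap ℚ ℚ_[ℓ]))
  have hQbd : BD c (T.Q.map (algebraMap ℚ ℚ_[ℓ])) := by
    intro a b hab
    rw [Matrix.map_apply, hQ a b hab, map_zero]
  have hQdet : Q.det ≠ 0 := by
    apply sm_det hQbd
    have h1 : (T.Q.map (algebraMap ℚ ℚ_[ℓ])).det = algebraMap ℚ ℚ_[ℓ] T.Q.det :=
      (RingHom.map_det (algebraMap ℚ ℚ_[ℓ]) T.Q).symm
    rw [h1]
    intro h0
    exact Pool.Agent.W74.PG.det_ne T ((algebraMap ℚ ℚ_[ℓ]).injective (by rw [h0, map_zero]))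
  have hMQ : ∀ s, (M s)ᵀ * Q * M s = Q := by
    intro s
    have h1 := congrArg (sm c i) (hg.form s)
    have h2 : (M s)ᵀ = sm c i (qm (β s))ᵀ := rfl
    rw [h2, hMs, ← sm_mul hQbd, ← sm_mul (hg.qbd s)]
    exact h1
  have hQs : Qᵀ = Q := by
    ext a b
    change algebraMap ℚ ℚ_[ℓ] (T.Q b.1 a.1) = algebraMap ℚ ℚ_[ℓ] (T.Q a.1 b.1)
    congr 1
    exact congrFun (congrFun T.symm a.1) b.1
  let ρ := endRep M
  have hρ : ∀ s, (ρ s).charpoly = fr c β i s := by
    intro s
    change (Matrix.toLin' (M s)).charpoly = _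
    rw [Matrix.charpoly_toLin']
    rfl
  have hreg : ∀ s, RegularP j (fr c β i s) → Reg ℂ (ρ s).charpoly := by
    intro s hs
    rw [hρ]
    exact ⟨hs.1, fun x y hx hy => hs.2 x y hx hy⟩
  have hcard : finrank ℚ_[ℓ] ({a // c a = i} → ℚ_[ℓ]) = Fintype.card {a // c a = i} :=
    Module.finrank_fintype_fun_eq_card _
  -- irreducibility over the small field and an isolated root
  have key : (∀ Δ : Subgroup Γ, Δ.FiniteIndex → ∀ U : Submodule ℚ_[ℓ] ({a // c a = i} → ℚ_[ℓ]),
      (∀ s ∈ Δ, ∀ x ∈ U, M s *ᵥ x ∈ U) → U = ⊥ ∨ U = ⊤) ∧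
      ∃ (s : Γ) (μ : ℚ_[ℓ]), Isolated ℂ (M s).charpoly μ := by
    rcases h with ⟨h1, s, μ, h2⟩ | ⟨⟨s, t, h1, h2⟩, h3⟩
    · refine ⟨fun Δ hΔ U hU => ?_, s, μ, h2⟩
      refine irr_even (E := ℂ) ρ (fun d hd hd' => ?_) hΔ (U := U) fun t ht x hx => ?_
      · rw [hcard] at hd'
        obtain ⟨s, hs, hs'⟩ := h1 d hd hd'
        exact ⟨s, hreg s hs, by rw [hρ]; exact hs'⟩
      · exact hU t ht x hx
    · refine ⟨fun Δ hΔ U hU => ?_, s, ?_⟩
      · refine irr_odd (E := ℂ) ρ (b := Matrix.toBilin' Q) (t := t) ?_ ?_ ?_ (hreg s h1)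
          (by rw [hρ, hρ]; exact h2) (fun d hd hd' => ?_) hΔ (U := U) fun t ht x hx => ?_
        · intro x hx
          have h4 : Qᵀ *ᵥ x = 0 := by
            funext a
            have h5 := hx (Pi.single a 1)
            rw [Matrix.toBilin'_apply', Matrix.dotProduct_mulVec, dotProduct_single, mul_one] at h5
            rw [Matrix.mulVec_transpose]
            exact h5
          exact Matrix.eq_zero_of_mulVec_eq_zero (by rwa [Matrix.det_transpose]) h4
        · intro x y
          rw [Matrix.toBilin'_apply', Matrix.toBilin'_apply', Matrix.dotProduct_mulVec,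
            ← Matrix.mulVec_transpose, hQs, dotProduct_comm]
        · intro s x y
          change Matrix.toBilin' Q (Matrix.toLin' (M s) x) (Matrix.toLin' (M s) y) = _
          rw [Matrix.toBilin'_apply', Matrix.toBilin'_apply', Matrix.toLin'_apply,
            Matrix.toLin'_apply]
          conv_rhs => rw [← hMQ s]
          rw [← Matrix.mulVec_mulVec, ← Matrix.mulVec_mulVec, Matrix.dotProduct_mulVec x,
            Matrix.vecMul_transpose]
        · rw [hcard] at hd'
          obtain ⟨s, hs, hs'⟩ := h3 d hd hd'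
          exact ⟨s, hreg s hs, by rw [hρ]; exact hs'⟩
        · exact hU t ht x hx
      · obtain ⟨ε₁, ε₂, R₁, R₂, hε, h4, h5, hR₁, -⟩ := h2
        have h7 : (M s).charpoly = (X - C ε₁) * R₁ := h4
        have h8 : (M s).charpoly ≠ 0 := (Matrix.charpoly_monic _).ne_zero
        have h9 : (M s).charpoly.IsRoot ε₁ := by
          rw [h7, IsRoot.def, eval_mul, eval_sub, eval_X, eval_C, sub_self, zero_mul]
        refine ⟨ε₁, ?_, fun x hx m hm hxm => ?_⟩
        · exact le_antisymm (rootMultiplicity_le_one_of_separable h1.1 ε₁)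
            ((rootMultiplicity_pos h8).2 h9)
        · refine h1.2 x (j ε₁) hx ?_ m hm hxm
          change (M s).charpoly.eval₂ j (j ε₁) = 0
          rw [eval₂_at_apply, h9, map_zero]
  obtain ⟨hirr, s₀, μ, hμ⟩ := key
  intro Δ hΔ W hWc hW
  let W' : Submodule ℂ ({a // c a = i} → ℂ) := W.comap (ex c i)
  have hup : ∀ s, up ℂ (M s) = sm c i (Rj β j s) := fun _ => rfl
  have hbd : ∀ s, BD c (Rj β j s) := by
    intro s a b hab
    change j (qm (β s) a b) = 0
    rw [hg.qbd s a b hab, map_zero]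
  have hW' : ∀ s ∈ Δ, ∀ w ∈ W', up ℂ (M s) *ᵥ w ∈ W' := by
    intro s hs w hw
    change ex c i (up ℂ (M s) *ᵥ w) ∈ W
    rw [hup, ← mulVec_ex (hbd s)]
    exact hW s hs _ hw
  have hcol : ∀ w : Fin n → ℂ, w ∈ Pool.Agent.Y95.MT.col c i →
      ∃ y : {a // c a = i} → ℂ, w = ex c i y := by
    intro w hw
    refine ⟨fun a => w a.1, ?_⟩
    funext a
    by_cases ha : c a = i
    · exact (ex_val (fun a : {a // c a = i} => w a.1) ⟨a, ha⟩).symm
    · rw [ex_of_ne _ ha]
      exact hw a ha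
  rcases abs_irr M hQdet hMQ hμ hΔ (hirr Δ hΔ) hW' with h1 | h1
  · left
    rw [eq_bot_iff]
    intro w hw
    obtain ⟨y, rfl⟩ := hcol w (hWc hw)
    have h2 : y ∈ W' := hw
    rw [h1, Submodule.mem_bot] at h2
    rw [h2, map_zero]
    exact Submodule.zero_mem _
  · right
    refine le_antisymm hWc fun w hw => ?_
    obtain ⟨y, rfl⟩ := hcol w hw
    have h2 : y ∈ W' := by rw [h1]; trivial
    exact h2

theorem noniso_block (hg : GalT c T.Q β) {i k : Fin r}
    (h1 : Irr c (Rj β j) i) (h2 : Irr c (Rj β j) k)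
    (h : Fintype.card {a // c a = i} = Fintype.card {a // c a = k} → DiffC c j β i k) :
    NonIso c (Rj β j) i k := by
  intro Δ hΔ A hA hcomm
  by_contra hne
  have hbd : ∀ s, BD c (Rj β j s) := by
    intro s a b hab
    change j (qm (β s) a b) = 0
    rw [hg.qbd s a b hab, map_zero]
  have hcom : ∀ s ∈ Δ, ∀ w, A *ᵥ (Rj β j s *ᵥ w) = Rj β j s *ᵥ (A *ᵥ w) := by
    intro s hs w
    rw [Matrix.mulVec_mulVec, Matrix.mulVec_mulVec, hcomm s hs]
  have hAk : ∀ w, A *ᵥ w ∈ Pool.Agent.Y95.MT.col c k := by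
    intro w a ha
    change ∑ b, A a b * w b = 0
    refine Finset.sum_eq_zero fun b _ => ?_
    have : A a b = 0 := by
      by_contra h0
      exact ha (hA a b h0).1
    rw [this, zero_mul]
  -- the kernel
  have hker : ∀ w ∈ Pool.Agent.Y95.MT.col c i, A *ᵥ w = 0 → w = 0 := by
    let W : Submodule ℂ (Fin n → ℂ) :=
      Pool.Agent.Y95.MT.col c i ⊓ LinearMap.ker (Matrix.toLin' A)
    have hWmem : ∀ w, w ∈ W ↔ w ∈ Pool.Agent.Y95.MT.col c i ∧ A *ᵥ w = 0 := by
      intro w
      rw [Submodule.mem_inf, LinearMap.mem_ker, Matrix.toLin'_apply]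
    rcases h1 Δ hΔ W inf_le_left (by
      intro s hs w hw
      rw [hWmem] at hw ⊢
      refine ⟨fun a ha => ?_, ?_⟩
      · change ∑ b, Rj β j s a b * w b = 0
        refine Finset.sum_eq_zero fun b _ => ?_
        by_cases hb : c b = i
        · rw [hbd s a b (by rw [hb]; exact ha), zero_mul]
        · rw [hw.1 b hb, mul_zero]
      · rw [hcom s hs, hw.2, Matrix.mulVec_zero]) with h3 | h3
    · intro w hw hw0
      have h4 : w ∈ W := (hWmem w).2 ⟨hw, hw0⟩
      rw [h3] at h4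
      exact (Submodule.mem_bot ℂ).1 h4
    · exfalso
      apply hne
      ext a b
      by_contra h0
      have h5 : A a b ≠ 0 := h0
      have h6 : (Pi.single b 1 : Fin n → ℂ) ∈ W := by
        rw [h3]
        intro x hx
        rw [Pi.single_apply, if_neg]
        rintro rfl
        exact hx (hA a x h5).2
      have h7 := congrFun ((hWmem _).1 h6).2 a
      rw [Matrix.mulVec_single_one] at h7
      exact h5 h7
  have hexcol : ∀ (i : Fin r) (y : {a // c a = i} → ℂ),
      (ex c i y : Fin n → ℂ) ∈ Pool.Agent.Y95.MT.col c i := fun i y a ha => ex_of_ne y ha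
  have hcol : ∀ (i : Fin r) (w : Fin n → ℂ), w ∈ Pool.Agent.Y95.MT.col c i →
      ∃ y : {a // c a = i} → ℂ, w = ex c i y := by
    intro i w hw
    refine ⟨fun a => w a.1, ?_⟩
    funext a
    by_cases ha : c a = i
    · exact (ex_val (fun a : {a // c a = i} => w a.1) ⟨a, ha⟩).symm
    · rw [ex_of_ne _ ha]
      exact hw a ha
  -- the ranks
  have hcard : Fintype.card {a // c a = i} = Fintype.card {a // c a = k} := by
    let G : ({a // c a = i} → ℂ) →ₗ[ℂ] (Fin n → ℂ) := (Matrix.toLin' A).comp (ex c i)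
    have hG : ∀ y, G y = A *ᵥ ex c i y := fun y => Matrix.toLin'_apply A _
    have hGinj : Function.Injective G := by
      rw [← LinearMap.ker_eq_bot, LinearMap.ker_eq_bot']
      intro y hy
      rw [hG] at hy
      have h3 := hker _ (hexcol i y) hy
      exact ex_inj (by rw [h3, map_zero])
    have hexinj : Function.Injective (ex c k : ({a // c a = k} → ℂ) →ₗ[ℂ] (Fin n → ℂ)) :=
      fun y z hyz => ex_inj hyz
    have hrange : LinearMap.range G = Pool.Agent.Y95.MT.col c k := by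
      rcases h2 Δ hΔ (LinearMap.range G) (by
        rintro _ ⟨y, rfl⟩
        rw [hG]
        exact hAk _) (by
        rintro s hs _ ⟨y, rfl⟩
        refine ⟨sm c i (Rj β j s) *ᵥ y, ?_⟩
        rw [hG, hG, ← mulVec_ex (hbd s), hcom s hs]) with h3 | h3
      · exfalso
        apply hne
        ext a b
        by_contra h0
        have h5 : A a b ≠ 0 := h0
        have hb : c b = i := (hA a b h5).2
        have h6 : G (Pi.single ⟨b, hb⟩ 1) = 0 := by
          have h7 : G (Pi.single ⟨b, hb⟩ 1) ∈ LinearMap.range G := ⟨_, rfl⟩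
          rw [h3] at h7
          exact (Submodule.mem_bot ℂ).1 h7
        have h8 := hGinj (h6.trans (map_zero G).symm)
        have h9 := congrFun h8 ⟨b, hb⟩
        rw [Pi.single_eq_same] at h9
        exact one_ne_zero h9
      · exact h3
    have hrange' : LinearMap.range (ex c k : ({a // c a = k} → ℂ) →ₗ[ℂ] (Fin n → ℂ)) =
        Pool.Agent.Y95.MT.col c k := by
      ext w
      constructor
      · rintro ⟨y, rfl⟩
        exact hexcol k y
      · intro hw
        obtain ⟨y, rfl⟩ := hcol k w hw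
        exact ⟨y, rfl⟩
    have h3 := LinearMap.finrank_range_of_inj hGinj
    have h4 := LinearMap.finrank_range_of_inj hexinj
    rw [hrange, Module.finrank_fintype_fun_eq_card] at h3
    rw [hrange', Module.finrank_fintype_fun_eq_card] at h4
    rw [← h3, h4]
  obtain ⟨s, x, hx, hxy⟩ := h hcard
  obtain ⟨m, hm, -, hmem⟩ := Subgroup.exists_pow_mem_of_index_ne_zero hΔ.index_ne_zero s
  -- an eigenvector
  have hcp : ∀ (i : Fin r) (x : ℂ), (fr c β i s).eval₂ j x = (sm c i (Rj β j s)).charpoly.eval x := by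
    intro i x
    have h3 : sm c i (Rj β j s) = (sm c i (qm (β s))).map j := rfl
    rw [h3]
    change _ = (((sm c i (qm (β s)))).map j).charpoly.eval x
    rw [Matrix.charpoly_map, eval_map]
    rfl
  obtain ⟨y, hy⟩ : ∃ y, Module.End.HasEigenvector (Matrix.toLin' (sm c i (Rj β j s))) x y := by
    apply Module.End.HasEigenvalue.exists_hasEigenvector
    rw [Module.End.hasEigenvalue_iff_isRoot_charpoly, Matrix.charpoly_toLin', IsRoot.def, ← hcp]
    exact hx
  have hy1 : sm c i (Rj β j s) *ᵥ y = x • y := by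
    have := hy.apply_eq_smul
    rwa [Matrix.toLin'_apply] at this
  set w := ex c i y with hw
  have hw0 : w ≠ 0 := fun h0 => hy.2 (ex_inj (by rw [← hw, h0, map_zero]))
  have hws : Rj β j s *ᵥ w = x • w := by
    rw [hw, mulVec_ex (hbd s), hy1, map_smul]
  have hwm : ∀ m : ℕ, Rj β j (s ^ m) *ᵥ w = x ^ m • w := by
    intro m
    induction m with
    | zero => rw [pow_zero, map_one, Matrix.one_mulVec, pow_zero, one_smul]
    | succ m ih =>
      rw [pow_succ', map_mul, ← Matrix.mulVec_mulVec, ih, Matrix.mulVec_smul, hws, smul_smul,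
        pow_succ]
  obtain ⟨z, hz⟩ := hcol k (A *ᵥ w) (hAk w)
  have hz0 : z ≠ 0 := by
    rintro rfl
    rw [map_zero] at hz
    exact hw0 (hker w (hexcol i y) hz)
  have hzm : sm c k (Rj β j (s ^ m)) *ᵥ z = x ^ m • z := by
    apply ex_inj
    rw [← mulVec_ex (hbd _), ← hz, ← hcom _ hmem, hwm, Matrix.mulVec_smul, hz, map_smul]
  let L := Matrix.toLin' (sm c k (Rj β j s))
  have hLm : (L ^ m) z = x ^ m • z := by
    have h3 : ∀ m : ℕ, L ^ m = Matrix.toLin' (sm c k (Rj β j (s ^ m))) := by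
      intro m
      induction m with
      | zero => rw [pow_zero, pow_zero, map_one, sm_one, Matrix.toLin'_one]; rfl
      | succ m ih =>
        rw [pow_succ', pow_succ', map_mul, sm_mul (hbd _), Matrix.toLin'_mul, ih]
        rfl
    rw [h3, Matrix.toLin'_apply]
    exact hzm
  have h4 : Module.End.HasEigenvalue (L ^ m) (x ^ m) :=
    Module.End.hasEigenvalue_of_hasEigenvector (x := z)
      ⟨Module.End.mem_eigenspace_iff.2 hLm, hz0⟩
  rw [Module.End.hasEigenvalue_iff_mem_spectrum, spectrum.map_pow_of_pos L hm] at h4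
  obtain ⟨u, hu, hux⟩ := h4
  rw [← Module.End.hasEigenvalue_iff_mem_spectrum,
    Module.End.hasEigenvalue_iff_isRoot_charpoly, Matrix.charpoly_toLin', IsRoot.def, ← hcp] at hu
  exact hxy u hu m hm hux.symm

end

end Q43.FD
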