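import Pool.Agent.Y134.TF.Irr

/-!
# Subspaces which are stable under a power of a regular endomorphism
-/

set_option autoImplicit false

namespace Q43.FD

open Polynomial Module Pool.Agent.Y134.TF TensorProduct

section
variable {K : Type} [Field K] [CharZero K] {E : Type} [Field E] [IsAlgClosed E] [Algebra K E]
  {V : Type} [AddCommGroup V] [Module K V] [FiniteDimensional K V]

/-- The roots are different and no quotient of two of them is a root of unity. -/
def Reg (E : Type) [Field E] [Algebra K E] (P : K[X]) : Prop :=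
  P.Separable ∧ ∀ x y : E, aeval x P = 0 → aeval y P = 0 → ∀ m : ℕ, 0 < m → x ^ m = y ^ m → x = y

omit [IsAlgClosed E] in
lemma aeval_smul {A : Type} [AddCommGroup A] [Module E A] (F : Module.End E A) {v : A} {x : E}
    (hv : F v = x • v) (q : E[X]) : aeval F q v = q.eval x • v := by
  induction q using Polynomial.induction_on' with
  | add p q hp hq => rw [map_add, LinearMap.add_apply, hp, hq, eval_add, add_smul]
  | monomial n a =>
    have h1 : ∀ n : ℕ, (F ^ n) v = x ^ n • v := by
      intro n
      induction n with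
      | zero => simp
      | succ n ih => rw [pow_succ', Module.End.mul_apply, ih, map_smul, hv, smul_smul, pow_succ]
    rw [aeval_monomial, Module.End.mul_apply, h1, eval_monomial, Module.algebraMap_end_apply,
      smul_smul]

omit [CharZero K] [IsAlgClosed E] [FiniteDimensional K V] in
lemma baseChange_aeval (f : Module.End K V) (q : K[X]) :
    aeval (f.baseChange E) (q.map (algebraMap K E)) = (aeval f q).baseChange E := by
  rw [aeval_map_algebraMap]
  induction q using Polynomial.induction_on' with
  | add p q hp hq => rw [map_add, map_add, hp, hq, LinearMap.baseChange_add]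
  | monomial n a =>
    rw [aeval_monomial, aeval_monomial]
    have h1 : (algebraMap K (Module.End K V) a * f ^ n).baseChange E =
        a • (f ^ n).baseChange E := by
      rw [← Algebra.smul_def, LinearMap.baseChange_smul]
    rw [h1, LinearMap.baseChange_pow, ← Algebra.smul_def]

omit [CharZero K] in
/-- The values of a polynomial which annihilates a power. -/
lemma root_of_annihilates {f : Module.End K V} {m : ℕ} {q : K[X]}
    (hq0 : aeval (f ^ m) q = 0) {x : E} (hx : aeval x f.charpoly = 0) : aeval (x ^ m) q = 0 := by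
  have h3 : Module.End.HasEigenvalue (f.baseChange E) x := by
    rw [Module.End.hasEigenvalue_iff_isRoot_charpoly, LinearMap.charpoly_baseChange, IsRoot.def,
      eval_map_algebraMap]
    exact hx
  obtain ⟨v, hv⟩ := h3.exists_hasEigenvector
  have h4 : ((f ^ m).baseChange E) v = x ^ m • v := by
    rw [LinearMap.baseChange_pow]
    have h1 : ∀ n : ℕ, ((f.baseChange E) ^ n) v = x ^ n • v := by
      intro n
      induction n with
      | zero => simp
      | succ n ih =>
        rw [pow_succ', Module.End.mul_apply, ih, map_smul, hv.apply_eq_smul, smul_smul, pow_succ]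
    exact h1 m
  have h5 := aeval_smul _ h4 (q.map (algebraMap K E))
  rw [baseChange_aeval, hq0, LinearMap.baseChange_zero, LinearMap.zero_apply, eval_map_algebraMap]
    at h5
  exact (smul_eq_zero.1 h5.symm).resolve_right hv.2

lemma finrank_le_degree {f : Module.End K V} (h : Reg E f.charpoly) {m : ℕ} (hm : 0 < m)
    {q : K[X]} (hq : q ≠ 0) (hq0 : aeval (f ^ m) q = 0) : finrank K V ≤ q.natDegree := by
  classical
  have hR0 : f.charpoly.map (algebraMap K E) ≠ 0 :=
    (Polynomial.map_ne_zero (LinearMap.charpoly_monic f).ne_zero)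
  have hq0' : q.map (algebraMap K E) ≠ 0 := (Polynomial.map_ne_zero hq)
  have h4 : (f.charpoly.map (algebraMap K E)).roots.toFinset.card = finrank K V := by
    rw [Multiset.toFinset_card_of_nodup, splits_iff_card_roots.1 (IsAlgClosed.splits _),
      natDegree_map, LinearMap.charpoly_natDegree]
    exact nodup_roots (h.1.map)
  have h5 : (f.charpoly.map (algebraMap K E)).roots.toFinset.card
      ≤ (q.map (algebraMap K E)).roots.toFinset.card := by
    refine Finset.card_le_card_of_injOn (fun y => y ^ m) ?_ ?_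
    · intro y hy
      rw [Finset.mem_coe, Multiset.mem_toFinset, mem_roots hR0, IsRoot.def, eval_map_algebraMap] at hy
      rw [Finset.mem_coe, Multiset.mem_toFinset, mem_roots hq0', IsRoot.def, eval_map_algebraMap]
      exact root_of_annihilates hq0 hy
    · intro y hy y' hy' h'
      rw [Finset.mem_coe, Multiset.mem_toFinset, mem_roots hR0, IsRoot.def, eval_map_algebraMap] at hy hy'
      exact h.2 y y' hy hy' m hm h'
  rw [h4] at h5
  refine h5.trans ((Multiset.toFinset_card_le _).trans ?_)
  exact (card_roots' _).trans natDegree_map_le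

/-- A regular endomorphism is a polynomial in each of its powers. -/
theorem mem_span_pow {f : Module.End K V} (h : Reg E f.charpoly) {m : ℕ} (hm : 0 < m) :
    f ∈ Submodule.span K (Set.range fun i : Fin (finrank K V) => (f ^ m) ^ (i : ℕ)) := by
  set A := Submodule.span K (Set.range fun i : Fin (finrank K V) => (f ^ m) ^ (i : ℕ)) with hA
  set B := Submodule.span K (Set.range fun i : Fin (finrank K V) => f ^ (i : ℕ)) with hB
  have hpoly : ∀ p : K[X], aeval f p ∈ B := by
    intro p
    rw [← aeval_modByMonic_eq_self_of_root (LinearMap.aeval_self_charpoly f)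
      (p := p), aeval_eq_sum_range]
    by_cases hn : finrank K V = 0
    · have : Subsingleton V := Module.finrank_zero_iff.1 hn
      have h2 : ∀ x : Module.End K V, x ∈ B := fun x => by
        rw [Subsingleton.elim x 0]; exact B.zero_mem
      exact h2 _
    refine B.sum_mem fun i hi => B.smul_mem _ (Submodule.subset_span ?_)
    have h3 : (p %ₘ f.charpoly).natDegree < finrank K V := by
      rw [← LinearMap.charpoly_natDegree f]
      refine natDegree_modByMonic_lt _ (LinearMap.charpoly_monic f) fun h0 => hn ?_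
      rw [← LinearMap.charpoly_natDegree f, h0, natDegree_one]
    have h4 := Finset.mem_range.1 hi
    exact ⟨⟨i, by omega⟩, rfl⟩
  have hle : A ≤ B := by
    rw [hA, Submodule.span_le]
    rintro _ ⟨i, rfl⟩
    have h1 := hpoly (X ^ (m * i))
    rw [map_pow, aeval_X, pow_mul] at h1
    exact h1
  have hli : LinearIndependent K (fun i : Fin (finrank K V) => (f ^ m) ^ (i : ℕ)) := by
    rw [Fintype.linearIndependent_iff]
    intro g hg
    by_contra hne
    push Not at hne
    obtain ⟨i0, hi0⟩ := hne
    set q : K[X] := ∑ i : Fin (finrank K V), monomial (i : ℕ) (g i) with hq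
    have hcoef : ∀ i : Fin (finrank K V), q.coeff i = g i := by
      intro i
      rw [hq, finsetSum_coeff, Finset.sum_eq_single i]
      · rw [coeff_monomial, if_pos rfl]
      · intro j _ hj
        rw [coeff_monomial, if_neg]
        exact fun h0 => hj (Fin.ext h0)
      · intro h0
        exact absurd (Finset.mem_univ i) h0
    have hqne : q ≠ 0 := by
      intro h0
      apply hi0
      rw [← hcoef, h0, coeff_zero]
    have hq0 : aeval (f ^ m) q = 0 := by
      rw [hq, map_sum, ← hg]
      refine Finset.sum_congr rfl fun i _ => ?_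
      rw [aeval_monomial, Algebra.smul_def]
    have h1 := finrank_le_degree h hm hqne hq0
    have h2 : q.degree < (finrank K V : ℕ) := by
      rw [hq]
      refine lt_of_le_of_lt (degree_sum_le _ _) ?_
      rw [Finset.sup_lt_iff (WithBot.bot_lt_coe _)]
      intro i _
      exact lt_of_le_of_lt (degree_monomial_le _ _) (by exact_mod_cast i.2)
    rw [degree_eq_natDegree hqne] at h2
    have h3 : q.natDegree < finrank K V := by exact_mod_cast h2
    omega
  have hfin : FiniteDimensional K B := FiniteDimensional.span_of_finite K (Set.finite_range _)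
  have h1 : finrank K A = finrank K V := by
    rw [hA, finrank_span_eq_card hli, Fintype.card_fin]
  have h2 : finrank K B ≤ finrank K V := by
    have h3 := finrank_range_le_card (R := K) (fun i : Fin (finrank K V) => f ^ (i : ℕ))
    rw [Fintype.card_fin] at h3
    exact h3
  have h3 : A = B := Submodule.eq_of_le_of_finrank_le hle (by omega)
  rw [h3]
  have h4 := hpoly X
  rwa [aeval_X] at h4

/-- A subspace which is stable under a power of a regular endomorphism is stable. -/
theorem stable_of_pow {f : Module.End K V} (h : Reg E f.charpoly) {m : ℕ} (hm : 0 < m)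
    {U : Submodule K V} (hU : ∀ x ∈ U, (f ^ m) x ∈ U) : ∀ x ∈ U, f x ∈ U := by
  have h1 : ∀ g ∈ Submodule.span K (Set.range fun i : Fin (finrank K V) => (f ^ m) ^ (i : ℕ)),
      ∀ x ∈ U, g x ∈ U := by
    intro g hg
    induction hg using Submodule.span_induction with
    | mem g hg =>
      obtain ⟨i, rfl⟩ := hg
      have h2 : ∀ i : ℕ, ∀ x ∈ U, ((f ^ m) ^ i) x ∈ U := by
        intro i
        induction i with
        | zero => intro x hx; simpa using hx
        | succ i ih =>
          intro x hx
          rw [pow_succ', Module.End.mul_apply]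
          exact hU _ (ih x hx)
      exact h2 i
    | zero => intro x _; exact U.zero_mem
    | add g g' _ _ ih ih' => intro x hx; exact U.add_mem (ih x hx) (ih' x hx)
    | smul c g _ ih => intro x hx; exact U.smul_mem c (ih x hx)
  exact h1 f (mem_span_pow h hm)

variable {Γ : Type} [Group Γ] (ρ : Γ →* Module.End K V)

/-- no factor of degree `d` -/
def NoFactor (P : K[X]) (d : ℕ) : Prop := ∀ f : K[X], f.Monic → f.natDegree = d → ¬ f ∣ P

omit [CharZero K] [FiniteDimensional K V] in
lemma exists_pow (ρ : Γ →* Module.End K V) {Δ : Subgroup Γ} (hΔ : Δ.FiniteIndex) (s : Γ) :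
    ∃ m : ℕ, 0 < m ∧ s ^ m ∈ Δ ∧ ∀ U : Submodule K V, (∀ t ∈ Δ, ∀ x ∈ U, ρ t x ∈ U) →
      ∀ x ∈ U, ((ρ s) ^ m) x ∈ U := by
  obtain ⟨m, hm, -, h⟩ := Subgroup.exists_pow_mem_of_index_ne_zero hΔ.index_ne_zero s
  refine ⟨m, hm, h, fun U hU x hx => ?_⟩
  rw [← map_pow]
  exact hU _ h x hx

/-- No stable subspace of dimension `d`. -/
theorem no_subspace {d : ℕ} (h : ∃ s, Reg E (ρ s).charpoly ∧ NoFactor (ρ s).charpoly d)
    {Δ : Subgroup Γ} (hΔ : Δ.FiniteIndex) {U : Submodule K V}
    (hU : ∀ t ∈ Δ, ∀ x ∈ U, ρ t x ∈ U) : finrank K U ≠ d := by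
  obtain ⟨s, hs, hf⟩ := h
  obtain ⟨m, hm, -, h1⟩ := exists_pow ρ hΔ s
  have h2 : U ≤ U.comap (ρ s) := stable_of_pow hs hm (h1 U hU)
  intro hd
  refine hf _ (LinearMap.charpoly_monic ((ρ s).restrict h2)) ?_ ?_
  · rw [LinearMap.charpoly_natDegree, hd]
  · rw [Pool.Agent.W522.C.charpoly_eq_mul (ρ s) U h2]
    exact dvd_mul_right _ _

/-- The condition on two elements in the case of an odd dimension. -/
def TwoLines (K : Type) [Field K] (P₁ P₂ : K[X]) : Prop :=
  ∃ (ε₁ ε₂ : K) (R₁ R₂ : K[X]), ε₁ * ε₁ = 1 ∧ P₁ = (X - C ε₁) * R₁ ∧ P₂ = (X - C ε₂) * R₂ ∧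
    (∀ x, R₁.eval x ≠ 0) ∧ R₂.eval 1 ≠ 0 ∧ R₂.eval (-1) ≠ 0 ∧
    ¬ IsSquare ((R₁.eval 1 * R₁.eval (-1)) * (R₂.eval 1 * R₂.eval (-1)))

variable {b : V →ₗ[K] V →ₗ[K] K}

/-- No stable line. -/
theorem no_line (hb : ∀ x, (∀ y, b x y = 0) → x = 0) (hsym : ∀ x y, b x y = b y x)
    (hρ : ∀ s x y, b (ρ s x) (ρ s y) = b x y) {s t : Γ} (hs : Reg E (ρ s).charpoly)
    (h : TwoLines K (ρ s).charpoly (ρ t).charpoly) {Δ : Subgroup Γ} (hΔ : Δ.FiniteIndex)
    {U : Submodule K V} (hU : ∀ t ∈ Δ, ∀ x ∈ U, ρ t x ∈ U) : finrank K U ≠ 1 := by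
  obtain ⟨ε₁, ε₂, R₁, R₂, hε, h1, h2, hR₁, hR₂, hR₂', hsq⟩ := h
  intro hd
  obtain ⟨v, hv, hv0, hvs⟩ : ∃ v ∈ U, v ≠ 0 ∧ ∀ x ∈ U, ∃ c : K, x = c • v := by
    obtain ⟨v, hv0, hv⟩ := finrank_eq_one_iff'.1 hd
    refine ⟨v, v.2, fun h0 => hv0 (Subtype.ext h0), fun x hx => ?_⟩
    obtain ⟨c, hc⟩ := hv ⟨x, hx⟩
    exact ⟨c, (congrArg Subtype.val hc).symm⟩
  -- stable subspaces of dimension one are in the eigenspace
  have key : ∀ w : V, w ≠ 0 → ∀ Δ : Subgroup Γ, Δ.FiniteIndex →
      (∀ t ∈ Δ, ∃ c : K, ρ t w = c • w) → ρ s w = ε₁ • w := by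
    intro w hw Δ hΔ hw'
    obtain ⟨m, hm, -, h3⟩ := exists_pow ρ hΔ s
    have h4 : ∀ x ∈ Submodule.span K {w}, ρ s x ∈ Submodule.span K {w} := by
      apply stable_of_pow hs hm
      apply h3
      intro t ht x hx
      rw [Submodule.mem_span_singleton] at hx ⊢
      obtain ⟨a, rfl⟩ := hx
      obtain ⟨c, hc⟩ := hw' t ht
      exact ⟨a * c, by rw [map_smul, hc, smul_smul]⟩
    obtain ⟨c, hc⟩ := Submodule.mem_span_singleton.1 (h4 w (Submodule.mem_span_singleton_self w))
    have h5 : (ρ s).charpoly.eval c = 0 := by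
      rw [← IsRoot.def, ← Module.End.hasEigenvalue_iff_isRoot_charpoly]
      exact Module.End.hasEigenvalue_of_hasEigenvector (x := w)
        ⟨Module.End.mem_eigenspace_iff.2 hc.symm, hw⟩
    rw [h1, eval_mul, eval_sub, eval_X, eval_C] at h5
    have h6 := (mul_eq_zero.1 h5).resolve_right (hR₁ c)
    rw [← hc, sub_eq_zero.1 h6]
  have hvΔ : ∀ t ∈ Δ, ∃ c : K, ρ t v = c • v := fun t ht => hvs _ (hU t ht v hv)
  have h3 := key v hv0 Δ hΔ hvΔ
  -- the line is the eigenspace
  have hlin : ∀ w : V, ρ s w = ε₁ • w → ∃ c : K, w = c • v := by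
    intro w hw
    by_contra hne
    push Not at hne
    have hli : LinearIndependent K ![v, w] := by
      rw [LinearIndependent.pair_iff' hv0]
      intro c hc
      exact hne c hc.symm
    set S := Submodule.span K (Set.range ![v, w]) with hS
    have hSst : S ≤ S.comap (ρ s) := by
      rw [hS, Submodule.span_le]
      rintro _ ⟨i, rfl⟩
      fin_cases i
      · change ρ s v ∈ Submodule.span K (Set.range ![v, w])
        rw [h3]
        exact Submodule.smul_mem _ _ (Submodule.subset_span ⟨0, rfl⟩)
      · change ρ s w ∈ Submodule.span K (Set.range ![v, w])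
        rw [hw]
        exact Submodule.smul_mem _ _ (Submodule.subset_span ⟨1, rfl⟩)
    have hsc : ∀ x ∈ S, ρ s x = ε₁ • x := by
      intro x hx
      induction hx using Submodule.span_induction with
      | mem x hx =>
        obtain ⟨i, rfl⟩ := hx
        fin_cases i
        · exact h3
        · exact hw
      | zero => simp
      | add x y _ _ hx hy => rw [map_add, hx, hy, smul_add]
      | smul c x _ hx => rw [map_smul, hx, smul_comm]
    have h4 := Pool.Agent.W522.C.charpoly_eq_mul (ρ s) S hSst
    have h5 : ((ρ s).restrict hSst).charpoly = (X - C ε₁) ^ 2 := by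
      apply Polynomial.funext
      intro t
      rw [LinearMap.eval_charpoly]
      have h6 : algebraMap K (Module.End K S) t - (ρ s).restrict hSst =
          (t - ε₁) • (1 : Module.End K S) := by
        apply LinearMap.ext
        intro x
        apply Subtype.ext
        change t • (x : V) - ρ s x = (t - ε₁) • (x : V)
        rw [hsc x x.2, sub_smul]
      rw [h6, LinearMap.det_smul, map_one, mul_one, hS, finrank_span_eq_card hli, Fintype.card_fin]
      simp
    rw [h5] at h4
    have h7 : (X - C ε₁) ^ 2 ∣ (ρ s).charpoly := by rw [h4]; exact dvd_mul_right _ _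
    have h8 : Squarefree (ρ s).charpoly := hs.1.squarefree
    have h9 := h8 (X - C ε₁) (by rw [← pow_two]; exact h7)
    exact not_isUnit_X_sub_C ε₁ h9
  -- the other element preserves the line
  have h4 : ρ s (ρ t v) = ε₁ • ρ t v := by
    have ht0 : ρ t v ≠ 0 := by
      intro h0
      apply hv0
      have h5 : ρ t⁻¹ (ρ t v) = v := by
        rw [← Module.End.mul_apply, ← map_mul, inv_mul_cancel, map_one, Module.End.one_apply]
      rw [← h5, h0, map_zero]
    have hfi : (Δ.map (MulAut.conj t).toMonoidHom).FiniteIndex := by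
      constructor
      rw [Subgroup.index_map_of_bijective (MulAut.conj t).bijective]
      exact hΔ.index_ne_zero
    refine key _ ht0 _ hfi ?_
    rintro _ ⟨u, hu, rfl⟩
    obtain ⟨c, hc⟩ := hvΔ u hu
    refine ⟨c, ?_⟩
    change ρ (t * u * t⁻¹) (ρ t v) = c • ρ t v
    rw [← Module.End.mul_apply, ← map_mul, inv_mul_cancel_right, map_mul, Module.End.mul_apply, hc,
      map_smul]
  obtain ⟨e, he⟩ := hlin _ h4
  -- the line is not isotropic
  obtain ⟨v₀, hv₀, hv₀', hvv₀⟩ := exists_vector hb (hρ s) hε h1 (hR₁ ε₁)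
  obtain ⟨c₀, hc₀⟩ := hlin v₀ hv₀'
  have hvv : b v v ≠ 0 := by
    intro h0
    apply hvv₀
    simp only [hc₀, map_smul, LinearMap.smul_apply, h0, smul_zero]
  exact hsq (isSquare_of_line hb hsym (hρ s) (hρ t) h1 h2 (hR₁ 1) (hR₁ (-1)) hR₂ hR₂' hvv h3 he)

end

end Q43.FD
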