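import Pool.Agent.Q43.FD.Abs

/-!
# Irreducibility from characteristic polynomials
-/

set_option autoImplicit false

namespace Q43.FD

open Polynomial Module Pool.Agent.Y134.TF TensorProduct
open scoped Matrix

section
variable {K : Type} [Field K] [CharZero K] {E : Type} [Field E] [IsAlgClosed E] [Algebra K E]
  {V : Type} [AddCommGroup V] [Module K V] [FiniteDimensional K V]
  {Γ : Type} [Group Γ] (ρ : Γ →* Module.End K V)

/-- Irreducibility over the small field. -/
theorem irr_even (h : ∀ d, 0 < d → d < finrank K V →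
    ∃ s, Reg E (ρ s).charpoly ∧ NoFactor (ρ s).charpoly d) {Δ : Subgroup Γ} (hΔ : Δ.FiniteIndex)
    {U : Submodule K V} (hU : ∀ t ∈ Δ, ∀ x ∈ U, ρ t x ∈ U) : U = ⊥ ∨ U = ⊤ := by
  by_cases h0 : U = ⊥
  · exact Or.inl h0
  by_cases h1 : U = ⊤
  · exact Or.inr h1
  exfalso
  have h2 : 0 < finrank K U := by
    have : Nontrivial U := (Submodule.nontrivial_iff_ne_bot).2 h0
    exact finrank_pos
  have h3 : finrank K U < finrank K V := Submodule.finrank_lt h1
  exact no_subspace ρ (h _ h2 h3) hΔ hU rfl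

variable {b : V →ₗ[K] V →ₗ[K] K}

theorem irr_odd (hb : ∀ x, (∀ y, b x y = 0) → x = 0) (hsym : ∀ x y, b x y = b y x)
    (hρ : ∀ s x y, b (ρ s x) (ρ s y) = b x y) {s t : Γ} (hs : Reg E (ρ s).charpoly)
    (h2 : TwoLines K (ρ s).charpoly (ρ t).charpoly)
    (h : ∀ d, 1 < d → d + 1 < finrank K V →
      ∃ s, Reg E (ρ s).charpoly ∧ NoFactor (ρ s).charpoly d) {Δ : Subgroup Γ}
    (hΔ : Δ.FiniteIndex) {U : Submodule K V} (hU : ∀ t ∈ Δ, ∀ x ∈ U, ρ t x ∈ U) :
    U = ⊥ ∨ U = ⊤ := by
  by_cases h0 : U = ⊥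
  · exact Or.inl h0
  by_cases h1 : U = ⊤
  · exact Or.inr h1
  exfalso
  have h3 : 0 < finrank K U := by
    have : Nontrivial U := (Submodule.nontrivial_iff_ne_bot).2 h0
    exact finrank_pos
  have h4 : finrank K U < finrank K V := Submodule.finrank_lt h1
  by_cases h5 : finrank K U = 1
  · exact no_line ρ hb hsym hρ hs h2 hΔ hU h5
  by_cases h6 : finrank K U + 1 = finrank K V
  · have hnd : LinearMap.BilinForm.Nondegenerate b :=
      ⟨fun x hx => hb x hx, fun y hy => hb y fun x => by rw [hsym]; exact hy x⟩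
    have h7 := LinearMap.BilinForm.finrank_orthogonal hnd U
    refine no_line ρ hb hsym hρ hs h2 hΔ (U := LinearMap.BilinForm.orthogonal b U) ?_
      (by rw [h7]; omega)
    intro u hu x hx
    rw [LinearMap.BilinForm.mem_orthogonal_iff] at hx ⊢
    intro y hy
    have h8 : ρ u⁻¹ y ∈ U := hU _ (Δ.inv_mem hu) y hy
    have h9 := hx _ h8
    change b (ρ u⁻¹ y) x = 0 at h9
    change b y (ρ u x) = 0
    rw [← h9, ← hρ u (ρ u⁻¹ y) x, ← Module.End.mul_apply, ← map_mul, mul_inv_cancel, map_one,
      Module.End.one_apply]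
  · exact no_subspace ρ (h _ (by omega) (by omega)) hΔ hU rfl

/-- The root `μ` of `P` is simple, and it is isolated: its quotient with no other root is a root of
unity. -/
def Isolated (E : Type) [Field E] [Algebra K E] (P : K[X]) (μ : K) : Prop :=
  P.rootMultiplicity μ = 1 ∧
    ∀ x : E, aeval x P = 0 → ∀ m : ℕ, 0 < m → x ^ m = algebraMap K E μ ^ m → x = algebraMap K E μ

omit [CharZero K] [IsAlgClosed E] in
lemma Isolated.factor {P : K[X]} {μ : K} (h : Isolated E P μ) :
    ∃ q : K[X], P = (X - C μ) * q ∧ q.eval μ ≠ 0 := by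
  have hP : P ≠ 0 := by
    rintro rfl
    have := h.1
    simp at this
  obtain ⟨q, hq, hq'⟩ := exists_eq_pow_rootMultiplicity_mul_and_not_dvd P hP μ
  rw [h.1, pow_one] at hq
  exact ⟨q, hq, fun h0 => hq' (dvd_iff_isRoot.2 h0)⟩

/-- The multiple of the projector to an isolated eigenline, as a polynomial in a power. -/
theorem exists_projector {f : Module.End K V} {μ : K} (h : Isolated E f.charpoly μ) {m : ℕ}
    (hm : 0 < m) {φ : V →ₗ[K] K} (hφ0 : φ ≠ 0) (hφ : ∀ v, φ (f v) = μ * φ v) :
    ∃ (x : V) (r : K[X]), x ≠ 0 ∧ ∀ v, aeval (f ^ m) r v = φ v • x := by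
  obtain ⟨q, hq, hqμ⟩ := h.factor
  have hN : LinearMap.ker φ ≤ (LinearMap.ker φ).comap f := by
    intro x hx
    rw [LinearMap.mem_ker] at hx
    rw [Submodule.mem_comap, LinearMap.mem_ker, hφ, hx, mul_zero]
  have hsurj : LinearMap.range φ = ⊤ := by
    rw [LinearMap.range_eq_top]
    exact LinearMap.surjective hφ0
  have hquot : finrank K (V ⧸ LinearMap.ker φ) = 1 := by
    have h1 := Submodule.finrank_quotient_add_finrank (LinearMap.ker φ)
    have h2 := LinearMap.finrank_range_add_finrank_ker φ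
    rw [hsurj, finrank_top, finrank_self] at h2
    omega
  have hline : ((LinearMap.ker φ).mapQ (LinearMap.ker φ) f hN).charpoly = X - C μ := by
    refine Pool.Agent.Y134.Two.charpoly_line hquot fun x => ?_
    obtain ⟨x, rfl⟩ := Submodule.mkQ_surjective _ x
    change Submodule.Quotient.mk (f x) = μ • Submodule.Quotient.mk x
    rw [← Submodule.Quotient.mk_smul, Submodule.Quotient.eq, LinearMap.mem_ker, map_sub, hφ,
      map_smul, smul_eq_mul, sub_self]
  have hcp := Pool.Agent.W522.C.charpoly_eq_mul f (LinearMap.ker φ) hN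
  set g : Module.End K (LinearMap.ker φ) := f.restrict hN with hg
  have hgq : g.charpoly = q := by
    rw [hline, hq, mul_comm] at hcp
    exact (mul_right_cancel₀ (X_sub_C_ne_zero μ) hcp).symm
  obtain ⟨x₀, hx₀⟩ : ∃ x₀, Module.End.HasEigenvector f μ x₀ := by
    apply Module.End.HasEigenvalue.exists_hasEigenvector
    rw [Module.End.hasEigenvalue_iff_isRoot_charpoly, hq, IsRoot.def, eval_mul, eval_sub, eval_X,
      eval_C, sub_self, zero_mul]
  have hφx : φ x₀ ≠ 0 := by
    intro h0
    apply hqμ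
    rw [← hgq, ← IsRoot.def, ← Module.End.hasEigenvalue_iff_isRoot_charpoly]
    refine Module.End.hasEigenvalue_of_hasEigenvector (x := ⟨x₀, LinearMap.mem_ker.2 h0⟩) ⟨?_, ?_⟩
    · rw [Module.End.mem_eigenspace_iff]
      exact Subtype.ext hx₀.apply_eq_smul
    · intro h1
      exact hx₀.2 (congrArg Subtype.val h1)
  have hr : (g ^ m).charpoly.eval (μ ^ m) ≠ 0 := by
    intro h0
    apply hqμ
    obtain ⟨Φ, hΦ⟩ : ∃ Φ : Module.End E (E ⊗[K] LinearMap.ker φ), Φ = g.baseChange E := ⟨_, rfl⟩
    have h2 : (Φ ^ m).charpoly = (g ^ m).charpoly.map (algebraMap K E) := by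
      rw [hΦ, ← LinearMap.baseChange_pow, LinearMap.charpoly_baseChange]
    have h3 : Module.End.HasEigenvalue (Φ ^ m) (algebraMap K E μ ^ m) := by
      rw [Module.End.hasEigenvalue_iff_isRoot_charpoly, h2, IsRoot.def, ← map_pow, eval_map,
        eval₂_at_apply, h0, map_zero]
    rw [Module.End.hasEigenvalue_iff_mem_spectrum, spectrum.map_pow_of_pos Φ hm] at h3
    obtain ⟨z, hz, hzx⟩ := h3
    rw [← Module.End.hasEigenvalue_iff_mem_spectrum,
      Module.End.hasEigenvalue_iff_isRoot_charpoly, hΦ, LinearMap.charpoly_baseChange, IsRoot.def,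
      eval_map_algebraMap, hgq] at hz
    have h4 : z = algebraMap K E μ := by
      refine h.2 z ?_ m hm hzx
      rw [hq, map_mul, hz, mul_zero]
    rw [h4, aeval_algebraMap_apply] at hz
    exact (algebraMap K E).injective (by rw [map_zero]; exact hz)
  refine ⟨((g ^ m).charpoly.eval (μ ^ m) / φ x₀) • x₀, (g ^ m).charpoly,
    smul_ne_zero (div_ne_zero hr hφx) hx₀.2, fun v => ?_⟩
  -- the polynomial on the kernel
  have hker : ∀ x (hx : x ∈ LinearMap.ker φ), aeval (f ^ m) (g ^ m).charpoly x = 0 := by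
    intro x hx
    have h1 : ∀ p : K[X], ((aeval (g ^ m) p ⟨x, hx⟩ : LinearMap.ker φ) : V) =
        aeval (f ^ m) p x := by
      intro p
      induction p using Polynomial.induction_on' with
      | add p p' hp hp' =>
        rw [map_add, map_add, LinearMap.add_apply, LinearMap.add_apply, Submodule.coe_add, hp, hp']
      | monomial n a =>
        have h2 : ∀ n : ℕ, ∀ y : LinearMap.ker φ, (((g ^ n) y : LinearMap.ker φ) : V) =
            (f ^ n) (y : V) := by
          intro n
          induction n with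
          | zero => intro y; rfl
          | succ n ih =>
            intro y
            rw [pow_succ', pow_succ', Module.End.mul_apply, Module.End.mul_apply, ← ih]
            rfl
        rw [aeval_monomial, aeval_monomial, Module.End.mul_apply, Module.End.mul_apply,
          Module.algebraMap_end_apply, Module.algebraMap_end_apply, Submodule.coe_smul, ← pow_mul,
          ← pow_mul, h2]
    rw [← h1, LinearMap.aeval_self_charpoly]
    rfl
  have hx : ∀ p : K[X], aeval (f ^ m) p x₀ = p.eval (μ ^ m) • x₀ := by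
    intro p
    refine aeval_smul (f ^ m) ?_ p
    have h1 : ∀ n : ℕ, (f ^ n) x₀ = μ ^ n • x₀ := by
      intro n
      induction n with
      | zero => simp
      | succ n ih =>
        rw [pow_succ', Module.End.mul_apply, ih, map_smul, hx₀.apply_eq_smul, smul_smul, pow_succ]
    exact h1 m
  have h1 : v - (φ v / φ x₀) • x₀ ∈ LinearMap.ker φ := by
    rw [LinearMap.mem_ker, map_sub, map_smul, smul_eq_mul, div_mul_cancel₀ _ hφx, sub_self]
  have h2 := hker _ h1
  rw [map_sub, map_smul, hx, sub_eq_zero] at h2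
  rw [h2, smul_smul, smul_smul]
  congr 1
  ring

end

section
variable {K : Type} [Field K] [CharZero K] {E : Type} [Field E] [IsAlgClosed E] [Algebra K E]
  {ι : Type} [Fintype ι] [DecidableEq ι] {Γ : Type} [Group Γ] (M : Γ →* Matrix ι ι K)

/-- the matrix over the large field -/
noncomputable abbrev up (E : Type) [Field E] [Algebra K E] (A : Matrix ι ι K) : Matrix ι ι E :=
  A.map (algebraMap K E)

omit [CharZero K] [IsAlgClosed E] [DecidableEq ι] in
lemma up_mulVec (A : Matrix ι ι K) (x : ι → K) :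
    up E A *ᵥ (algebraMap K E ∘ x) = algebraMap K E ∘ (A *ᵥ x) := by
  funext a
  change ∑ b, algebraMap K E (A a b) * algebraMap K E (x b) = algebraMap K E (∑ b, A a b * x b)
  rw [map_sum]
  exact Finset.sum_congr rfl fun b _ => (map_mul _ _ _).symm

omit [CharZero K] [IsAlgClosed E] in
/-- A stable subspace which contains a rational vector. -/
theorem top_of_rational {Δ : Subgroup Γ}
    (hirr : ∀ U : Submodule K (ι → K), (∀ s ∈ Δ, ∀ x ∈ U, M s *ᵥ x ∈ U) → U = ⊥ ∨ U = ⊤)
    {W : Submodule E (ι → E)} (hW : ∀ s ∈ Δ, ∀ w ∈ W, up E (M s) *ᵥ w ∈ W) {x : ι → K}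
    (hx : x ≠ 0) (hxW : algebraMap K E ∘ x ∈ W) : W = ⊤ := by
  let U : Submodule K (ι → K) :=
    { carrier := {y | algebraMap K E ∘ y ∈ W}
      zero_mem' := by
        change algebraMap K E ∘ (0 : ι → K) ∈ W
        have : algebraMap K E ∘ (0 : ι → K) = 0 := by
          funext a
          exact map_zero _
        rw [this]
        exact W.zero_mem
      add_mem' := by
        intro y z hy hz
        have : algebraMap K E ∘ (y + z) = algebraMap K E ∘ y + algebraMap K E ∘ z := by
          funext a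
          exact map_add _ _ _
        change algebraMap K E ∘ (y + z) ∈ W
        rw [this]
        exact W.add_mem hy hz
      smul_mem' := by
        intro c y hy
        have : algebraMap K E ∘ (c • y) = algebraMap K E c • (algebraMap K E ∘ y) := by
          funext a
          exact map_mul _ _ _
        change algebraMap K E ∘ (c • y) ∈ W
        rw [this]
        exact W.smul_mem _ hy }
  have hU : ∀ s ∈ Δ, ∀ y ∈ U, M s *ᵥ y ∈ U := by
    intro s hs y hy
    change algebraMap K E ∘ (M s *ᵥ y) ∈ W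
    rw [← up_mulVec]
    exact hW s hs _ hy
  rcases hirr U hU with h | h
  · exfalso
    apply hx
    have h1 : x ∈ U := hxW
    rw [h] at h1
    exact (Submodule.mem_bot K).1 h1
  · rw [eq_top_iff]
    intro w _
    have h1 : w = ∑ a, w a • (Pi.single a 1 : ι → E) := by
      funext c
      rw [Finset.sum_apply, Finset.sum_eq_single c]
      · simp
      · intro a _ hac
        simp [Ne.symm hac]
      · intro h0
        exact absurd (Finset.mem_univ c) h0
    rw [h1]
    refine W.sum_mem fun a _ => W.smul_mem _ ?_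
    have h2 : (Pi.single a 1 : ι → K) ∈ U := by rw [h]; trivial
    have h3 : algebraMap K E ∘ (Pi.single a 1 : ι → K) = (Pi.single a 1 : ι → E) := by
      funext c
      change algebraMap K E ((Pi.single a 1 : ι → K) c) = _
      rw [Pi.single_apply, Pi.single_apply]
      split_ifs
      · exact map_one _
      · exact map_zero _
    rw [← h3]
    exact h2

omit [CharZero K] [IsAlgClosed E] in
lemma aeval_stable {G : Matrix ι ι K} {W : Submodule E (ι → E)}
    (hG : ∀ w ∈ W, up E G *ᵥ w ∈ W) (r : K[X]) : ∀ w ∈ W, up E (aeval G r) *ᵥ w ∈ W := by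
  have h1 : ∀ n : ℕ, ∀ w ∈ W, up E (G ^ n) *ᵥ w ∈ W := by
    intro n
    induction n with
    | zero =>
      intro w hw
      have : up E (G ^ 0) = 1 := by
        rw [pow_zero]
        exact Matrix.map_one _ (map_zero _) (map_one _)
      rw [this, Matrix.one_mulVec]
      exact hw
    | succ n ih =>
      intro w hw
      have : up E (G ^ (n + 1)) = up E G * up E (G ^ n) := by
        rw [pow_succ']
        exact Matrix.map_mul
      rw [this, ← Matrix.mulVec_mulVec]
      exact hG _ (ih w hw)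
  induction r using Polynomial.induction_on' with
  | add p q hp hq =>
    intro w hw
    have : up E (aeval G (p + q)) = up E (aeval G p) + up E (aeval G q) := by
      rw [map_add]
      exact Matrix.map_add _ (map_add _) _ _
    rw [this, Matrix.add_mulVec]
    exact W.add_mem (hp w hw) (hq w hw)
  | monomial n a =>
    intro w hw
    have : up E (aeval G (monomial n a)) = algebraMap K E a • up E (G ^ n) := by
      rw [aeval_monomial, ← Algebra.smul_def]
      ext i j
      exact map_mul (algebraMap K E) a ((G ^ n) i j)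
    rw [this, Matrix.smul_mulVec]
    exact W.smul_mem _ (h1 n w hw)

/-- Absolute irreducibility. -/
theorem abs_irr {Q : Matrix ι ι K} (hQ : Q.det ≠ 0) (hM : ∀ s, (M s)ᵀ * Q * M s = Q) {τ : Γ} {μ : K}
    (hτ : Isolated E (M τ).charpoly μ) {Δ : Subgroup Γ} (hΔ : Δ.FiniteIndex)
    (hirr : ∀ U : Submodule K (ι → K), (∀ s ∈ Δ, ∀ x ∈ U, M s *ᵥ x ∈ U) → U = ⊥ ∨ U = ⊤)
    {W : Submodule E (ι → E)} (hW : ∀ s ∈ Δ, ∀ w ∈ W, up E (M s) *ᵥ w ∈ W) : W = ⊥ ∨ W = ⊤ := by
  obtain ⟨m, hm, -, hmem⟩ := Subgroup.exists_pow_mem_of_index_ne_zero hΔ.index_ne_zero τ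
  -- the dual eigenvector
  obtain ⟨u, hu⟩ : ∃ u, Module.End.HasEigenvector (Matrix.toLin' (M τ)ᵀ) μ u := by
    apply Module.End.HasEigenvalue.exists_hasEigenvector
    obtain ⟨q, hq, -⟩ := hτ.factor
    rw [Module.End.hasEigenvalue_iff_isRoot_charpoly, Matrix.charpoly_toLin',
      Matrix.charpoly_transpose, hq, IsRoot.def, eval_mul, eval_sub, eval_X,
      eval_C, sub_self, zero_mul]
  have hu1 : (M τ)ᵀ *ᵥ u = μ • u := by
    have := hu.apply_eq_smul
    rwa [Matrix.toLin'_apply] at this
  let φ : (ι → K) →ₗ[K] K :=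
    { toFun := fun v => u ⬝ᵥ v
      map_add' := fun v w => dotProduct_add u v w
      map_smul' := fun c v => dotProduct_smul c u v }
  have hφ0 : φ ≠ 0 := by
    intro h0
    apply hu.2
    funext a
    have h1 := LinearMap.congr_fun h0 (Pi.single a 1)
    change u ⬝ᵥ Pi.single a 1 = 0 at h1
    rwa [dotProduct_single, mul_one] at h1
  have hφ : ∀ v, φ (Matrix.toLin' (M τ) v) = μ * φ v := by
    intro v
    change u ⬝ᵥ (Matrix.toLin' (M τ) v) = μ * (u ⬝ᵥ v)
    rw [Matrix.toLin'_apply, Matrix.dotProduct_mulVec, ← Matrix.mulVec_transpose, hu1,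
      smul_dotProduct, smul_eq_mul]
  obtain ⟨x, r, hx, hr⟩ := exists_projector (E := E) (f := Matrix.toLin' (M τ)) (μ := μ)
    (by rw [Matrix.charpoly_toLin']; exact hτ) hm hφ0 hφ
  have hr' : ∀ v, aeval (M τ ^ m) r *ᵥ v = (u ⬝ᵥ v) • x := by
    intro v
    have h1 : Matrix.toLin' (aeval (M τ ^ m) r) = aeval (Matrix.toLin' (M τ) ^ m) r := by
      have h2 := (aeval_algHom_apply (Matrix.toLinAlgEquiv' : Matrix ι ι K ≃ₐ[K] _) (M τ ^ m) r)
      have h3 : (Matrix.toLinAlgEquiv' : Matrix ι ι K ≃ₐ[K] _) (M τ ^ m) =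
          (Matrix.toLin' (M τ)) ^ m := by
        rw [map_pow]
        rfl
      rw [h3] at h2
      exact h2.symm
    have h2 := hr v
    rw [← h1, Matrix.toLin'_apply] at h2
    exact h2
  -- the multiples of `x`
  have hxW : ∀ (W : Submodule E (ι → E)), (∀ s ∈ Δ, ∀ w ∈ W, up E (M s) *ᵥ w ∈ W) →
      ∀ w ∈ W, ((algebraMap K E ∘ u) ⬝ᵥ w) • (algebraMap K E ∘ x) ∈ W := by
    intro W hW w hw
    have h1 : ∀ w ∈ W, up E (M τ ^ m) *ᵥ w ∈ W := by
      intro w hw
      rw [← map_pow]
      exact hW _ hmem w hw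
    have h2 := aeval_stable h1 r w hw
    have h3 : ∀ a c, aeval (M τ ^ m) r a c = x a * u c := by
      intro a c
      have h4 := congrFun (hr' (Pi.single c 1)) a
      rw [Matrix.mulVec_single_one, dotProduct_single, mul_one, Pi.smul_apply, smul_eq_mul] at h4
      rw [mul_comm]
      exact h4
    have h5 : up E (aeval (M τ ^ m) r) *ᵥ w =
        ((algebraMap K E ∘ u) ⬝ᵥ w) • (algebraMap K E ∘ x) := by
      funext a
      change ∑ c, algebraMap K E (aeval (M τ ^ m) r a c) * w c =
        (∑ c, algebraMap K E (u c) * w c) * algebraMap K E (x a)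
      rw [Finset.sum_mul]
      refine Finset.sum_congr rfl fun c _ => ?_
      rw [h3, map_mul]
      ring
    rw [← h5]
    exact h2
  have main : ∀ (W : Submodule E (ι → E)), (∀ s ∈ Δ, ∀ w ∈ W, up E (M s) *ᵥ w ∈ W) →
      (∃ w ∈ W, (algebraMap K E ∘ u) ⬝ᵥ w ≠ 0) → W = ⊤ := by
    rintro W hW ⟨w, hw, hne⟩
    refine top_of_rational M hirr hW hx ?_
    have h1 := W.smul_mem ((algebraMap K E ∘ u) ⬝ᵥ w)⁻¹ (hxW W hW w hw)
    rwa [smul_smul, inv_mul_cancel₀ hne, one_smul] at h1
  by_cases hc : ∃ w ∈ W, (algebraMap K E ∘ u) ⬝ᵥ w ≠ 0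
  · exact Or.inr (main W hW hc)
  left
  push Not at hc
  -- the orthogonal complement
  have hQE : (up E Q).det ≠ 0 := by
    have h1 : (up E Q).det = algebraMap K E Q.det := (RingHom.map_det (algebraMap K E) Q).symm
    rw [h1]
    intro h0
    exact hQ ((algebraMap K E).injective (by rw [h0, map_zero]))
  have hME : ∀ s, (up E (M s))ᵀ * up E Q * up E (M s) = up E Q := by
    intro s
    have h1 := congrArg (up E) (hM s)
    change ((M s)ᵀ * Q * M s).map (algebraMap K E) = _ at h1
    rw [Matrix.map_mul, Matrix.map_mul] at h1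
    exact h1
  let W' : Submodule E (ι → E) :=
    { carrier := {z | ∀ w ∈ W, z ⬝ᵥ (up E Q *ᵥ w) = 0}
      zero_mem' := fun w _ => zero_dotProduct _
      add_mem' := by
        intro y z hy hz w hw
        rw [add_dotProduct, hy w hw, hz w hw, add_zero]
      smul_mem' := by
        intro c y hy w hw
        rw [smul_dotProduct, hy w hw, smul_zero] }
  have hW' : ∀ s ∈ Δ, ∀ w ∈ W', up E (M s) *ᵥ w ∈ W' := by
    intro s hs z hz w hw
    have h1 : up E (M s⁻¹) *ᵥ w ∈ W := hW _ (Δ.inv_mem hs) w hw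
    have h2 : up E (M s) *ᵥ (up E (M s⁻¹) *ᵥ w) = w := by
      rw [Matrix.mulVec_mulVec]
      have h3 : up E (M s) * up E (M s⁻¹) = 1 := by
        have h4 : up E (M s) * up E (M s⁻¹) = up E (M s * M s⁻¹) := Matrix.map_mul.symm
        rw [h4, ← map_mul, mul_inv_cancel, map_one]
        exact Matrix.map_one _ (map_zero _) (map_one _)
      rw [h3, Matrix.one_mulVec]
    have h3 := hz _ h1
    rw [← hME s, ← Matrix.mulVec_mulVec, h2, ← Matrix.mulVec_mulVec, Matrix.dotProduct_mulVec,
      Matrix.vecMul_transpose] at h3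
    exact h3
  obtain ⟨y, hy⟩ : ∃ y : ι → K, Qᵀ *ᵥ y = u := by
    have h1 : IsUnit (Qᵀ).det := by rw [Matrix.det_transpose]; exact hQ.isUnit
    exact ⟨(Qᵀ)⁻¹ *ᵥ u, by rw [Matrix.mulVec_mulVec, Matrix.mul_nonsing_inv _ h1, Matrix.one_mulVec]⟩
  have hy0 : y ≠ 0 := by
    rintro rfl
    rw [Matrix.mulVec_zero] at hy
    exact hu.2 hy.symm
  have hyW : algebraMap K E ∘ y ∈ W' := by
    intro w hw
    rw [Matrix.dotProduct_mulVec]
    have h1 : (algebraMap K E ∘ y) ᵥ* up E Q = algebraMap K E ∘ u := by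
      rw [← hy, ← up_mulVec, ← Matrix.mulVec_transpose]
      rfl
    rw [h1]
    exact hc w hw
  have hW'top := top_of_rational M hirr hW' hy0 hyW
  rw [eq_bot_iff]
  intro w hw
  rw [Submodule.mem_bot]
  have h1 : up E Q *ᵥ w = 0 := by
    funext a
    have h2 : (Pi.single a 1 : ι → E) ∈ W' := by rw [hW'top]; trivial
    have h3 := h2 w hw
    rwa [single_dotProduct, one_mul] at h3
  exact Matrix.eq_zero_of_mulVec_eq_zero hQE h1

end

end Q43.FD
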